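import Mathlib

set_option autoImplicit false

namespace Pool.Agent.W_MP_944d6d_mp

/-- Configurations on the lattice `ℤ^d` with the states `0, 1, 2`. -/
abbrev Config (d : ℕ) : Type := (Fin d → ℤ) → Fin 3

/-- The von Neumann neighborhood `{0, ±e_1, ..., ±e_d}` of the origin. -/
def neumann (d : ℕ) : Set (Fin d → ℤ) := {u | ∑ i, |u i| ≤ 1}

/-- `F` is the global map of a cellular automaton with the von Neumann neighborhood. -/
def IsNeumannCA {d : ℕ} (F : Config d → Config d) : Prop :=
  ∃ f : (neumann d → Fin 3) → Fin 3, ∀ (x : Config d) (v : Fin d → ℤ),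
    F x v = f (fun u => x (v + (u : Fin d → ℤ)))

/-- `F` is number-conserving: for every spatially periodic configuration `x` (with period `n i` in
the `i`-th coordinate direction) the sum of the states over one period is the same for `x` and
`F x`. -/
def NumberConserving {d : ℕ} (F : Config d → Config d) : Prop :=
  ∀ n : Fin d → ℕ, (∀ i, 0 < n i) → ∀ x : Config d,
    (∀ (i : Fin d) (v : Fin d → ℤ), x (v + Pi.single i (n i : ℤ)) = x v) →
      ∑ v ∈ Fintype.piFinset (fun i => Finset.Ico (0 : ℤ) (n i)), (F x v : ℕ)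
        = ∑ v ∈ Fintype.piFinset (fun i => Finset.Ico (0 : ℤ) (n i)), (x v : ℕ)

end Pool.Agent.W_MP_944d6d_mp
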