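import Mathlib
import Pool.Agent.W_MP_944d6d_mp.Defs

set_option autoImplicit false

namespace Pool.Agent.W_MP_944d6d_mp

variable {d : ℕ}

theorem abs_le_one_of_mem {u : Fin d → ℤ} (hu : u ∈ neumann d) (i : Fin d) : |u i| ≤ 1 := by
  have h1 : |u i| ≤ ∑ j, |u j| :=
    Finset.single_le_sum (f := fun j => |u j|) (fun j _ => abs_nonneg _) (Finset.mem_univ i)
  have h2 : ∑ j, |u j| ≤ 1 := hu
  omega

theorem eq_zero_of_mem {u : Fin d → ℤ} (hu : u ∈ neumann d) {i j : Fin d} (hij : j ≠ i)
    (hi : u i ≠ 0) : u j = 0 := by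
  have h1 : |u i| + |u j| ≤ ∑ k, |u k| := by
    have h3 : ∑ k ∈ ({i, j} : Finset (Fin d)), |u k| ≤ ∑ k, |u k| :=
      Finset.sum_le_sum_of_subset_of_nonneg (Finset.subset_univ _) (fun k _ _ => abs_nonneg _)
    rwa [Finset.sum_pair (Ne.symm hij)] at h3
  have h2 : ∑ k, |u k| ≤ 1 := hu
  have h4 : 0 < |u i| := abs_pos.2 hi
  by_contra h
  have h5 : 0 < |u j| := abs_pos.2 h
  omega

theorem eq_of_coord {u v : Fin d → ℤ} (hu : u ∈ neumann d) (hv : v ∈ neumann d) {i : Fin d}
    (hi : u i ≠ 0) (h : u i = v i) : u = v := by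
  funext j
  by_cases hj : j = i
  · rw [hj, h]
  · rw [eq_zero_of_mem hu hj hi, eq_zero_of_mem hv hj (by rw [← h]; exact hi)]

theorem zero_mem_neumann : (0 : Fin d → ℤ) ∈ neumann d := by
  simp [neumann]

theorem neg_mem_neumann {u : Fin d → ℤ} (hu : u ∈ neumann d) : -u ∈ neumann d := by
  simpa [neumann] using hu

theorem single_mem_neumann (i : Fin d) {s : ℤ} (hs : |s| ≤ 1) :
    (Pi.single i s : Fin d → ℤ) ∈ neumann d := by
  have : ∑ j, |(Pi.single i s : Fin d → ℤ) j| = |s| := by
    rw [Finset.sum_eq_single i]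
    · simp
    · intro j _ hj
      simp [hj]
    · intro h
      exact absurd (Finset.mem_univ i) h
  show ∑ j, |(Pi.single i s : Fin d → ℤ) j| ≤ 1
  rw [this]
  exact hs

/-- The sum of two elements of the neighborhood determines the two elements, unless it is `0`. -/
theorem pair_unique_aux {x y x' y' : Fin d → ℤ} (hx : x ∈ neumann d) (hy : y ∈ neumann d)
    (hx' : x' ∈ neumann d) (hy' : y' ∈ neumann d) (h : x + y = x' + y') (h0 : x + y ≠ 0)
    (hx0 : x ≠ 0) : x = x' ∨ x = y' := by
  obtain ⟨i, hi⟩ : ∃ i, x i ≠ 0 := by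
    by_contra hcon
    push Not at hcon
    exact hx0 (funext hcon)
  have hyx : y i ≠ - x i := by
    intro hyi
    apply h0
    have h1 : y = -x := by
      apply eq_of_coord hy (neg_mem_neumann hx) (i := i)
      · rw [hyi]
        exact neg_ne_zero.2 hi
      · rw [hyi]; rfl
    rw [h1]; simp
  have hs : x i + y i = x' i + y' i := congrFun h i
  have b1 := abs_le.1 (abs_le_one_of_mem hx i)
  have b2 := abs_le.1 (abs_le_one_of_mem hy i)
  have b3 := abs_le.1 (abs_le_one_of_mem hx' i)
  have b4 := abs_le.1 (abs_le_one_of_mem hy' i)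
  have : x i = x' i ∨ x i = y' i := by omega
  rcases this with h1 | h1
  · left; exact eq_of_coord hx hx' hi h1
  · right; exact eq_of_coord hx hy' hi h1

theorem pair_unique {x y x' y' : Fin d → ℤ} (hx : x ∈ neumann d) (hy : y ∈ neumann d)
    (hx' : x' ∈ neumann d) (hy' : y' ∈ neumann d) (h : x + y = x' + y') (h0 : x + y ≠ 0) :
    (x = x' ∧ y = y') ∨ (x = y' ∧ y = x') := by
  by_cases hx0 : x = 0
  · have hy0 : y ≠ 0 := by
      intro hy0
      apply h0
      rw [hx0, hy0]; simp
    have h' : y + x = x' + y' := by rw [add_comm]; exact h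
    rcases pair_unique_aux hy hx hx' hy' h' (by rwa [add_comm]) hy0 with h1 | h1
    · right
      refine ⟨?_, h1⟩
      rw [h1] at h'
      exact add_left_cancel h'
    · left
      refine ⟨?_, h1⟩
      rw [h1] at h'
      rw [add_comm x' y'] at h'
      exact add_left_cancel h'
  · rcases pair_unique_aux hx hy hx' hy' h h0 hx0 with h1 | h1
    · left
      refine ⟨h1, ?_⟩
      rw [h1] at h
      exact add_left_cancel h
    · right
      refine ⟨h1, ?_⟩
      rw [h1, add_comm x' y'] at h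
      exact add_left_cancel h

end Pool.Agent.W_MP_944d6d_mp
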