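import Mathlib

set_option autoImplicit false

namespace Pool.Agent.W_MP_944d6d_mp

/-- All three values. -/
def all3 (p : ℕ → Bool) : Bool := p 0 && (p 1 && p 2)

/-- Is there a value. -/
def any3 (p : ℕ → Bool) : Bool := p 0 || (p 1 || p 2)

/-- Table lookup: `T` is the list of the values `φ(0,b,c)`. -/
def tv (t01 t02 t10 t11 t12 t20 t21 t22 : ℕ) (b c : ℕ) : ℕ :=
  match b, c with
  | 0, 0 => 0
  | 0, 1 => t01
  | 0, _ => t02
  | 1, 0 => t10
  | 1, 1 => t11
  | 1, _ => t12
  | _, 0 => t20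
  | _, 1 => t21
  | _, _ => t22

/-- The value `φ(a,b,c)` (shifted by the subtraction). -/
def pv (T : ℕ → ℕ → ℕ) (a b c : ℕ) : ℕ := (a + T b c + T 0 b) - (T a b + T 0 a)

/-- range condition at one place -/
def rng (T : ℕ → ℕ → ℕ) (a b c : ℕ) : Bool :=
  Nat.ble (T a b + T 0 a) (a + T b c + T 0 b) && Nat.ble (a + T b c + T 0 b) (T a b + T 0 a + 2)

def rngAll (T : ℕ → ℕ → ℕ) : Bool := all3 fun a => all3 fun b => all3 fun c => rng T a b c

def triv (T : ℕ → ℕ → ℕ) : Bool :=
  (all3 fun a => all3 fun b => all3 fun c => Nat.beq (pv T a b c) a) ||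
  ((all3 fun a => all3 fun b => all3 fun c => Nat.beq (pv T a b c) b) ||
  (all3 fun a => all3 fun b => all3 fun c => Nat.beq (pv T a b c) c))

/-- collision of period 2 -/
def coll2 (T : ℕ → ℕ → ℕ) : Bool :=
  any3 fun a => any3 fun b => any3 fun a' => any3 fun b' =>
    (Nat.beq (pv T b a b) (pv T b' a' b') && Nat.beq (pv T a b a) (pv T a' b' a')) &&
    !(Nat.beq a a' && Nat.beq b b')

/-- collision of period 3 -/
def coll3 (T : ℕ → ℕ → ℕ) : Bool :=
  any3 fun a => any3 fun b => any3 fun c => any3 fun a' => any3 fun b' => any3 fun c' =>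
    (Nat.beq (pv T c a b) (pv T c' a' b') && (Nat.beq (pv T a b c) (pv T a' b' c') &&
      Nat.beq (pv T b c a) (pv T b' c' a'))) &&
    !(Nat.beq a a' && (Nat.beq b b' && Nat.beq c c'))

/-- collision of period 4 -/
def coll4 (T : ℕ → ℕ → ℕ) : Bool :=
  any3 fun a => any3 fun b => any3 fun c => any3 fun d =>
  any3 fun a' => any3 fun b' => any3 fun c' => any3 fun d' =>
    (Nat.beq (pv T d a b) (pv T d' a' b') && (Nat.beq (pv T a b c) (pv T a' b' c') &&
      (Nat.beq (pv T b c d) (pv T b' c' d') && Nat.beq (pv T c d a) (pv T c' d' a')))) &&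
    !(Nat.beq a a' && (Nat.beq b b' && (Nat.beq c c' && Nat.beq d d')))

def good (T : ℕ → ℕ → ℕ) : Bool :=
  !(rngAll T) || (triv T || (coll2 T || (coll3 T || coll4 T)))

def checkAll : Bool :=
  all3 fun t01 => all3 fun t02 => all3 fun t10 => all3 fun t11 => all3 fun t12 =>
  all3 fun t20 => all3 fun t21 => all3 fun t22 => good (tv t01 t02 t10 t11 t12 t20 t21 t22)

theorem checkAll_eq : checkAll = true := by decide +kernel

end Pool.Agent.W_MP_944d6d_mp
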