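import Mathlib
import Pool.Agent.W_MP_944d6d_mp.Check

set_option autoImplicit false

namespace Pool.Agent.W_MP_944d6d_mp

/-- One-dimensional number conservation for a rule with three cells. -/
def NC1 (φ : Fin 3 → Fin 3 → Fin 3 → Fin 3) : Prop :=
  ∀ n : ℕ, 0 < n → ∀ y : ℤ → Fin 3, (∀ t, y (t + n) = y t) →
    ∑ t ∈ Finset.Ico (0 : ℤ) n, ((φ (y (t - 1)) (y t) (y (t + 1)) : ℕ) : ℤ)
      = ∑ t ∈ Finset.Ico (0 : ℤ) n, ((y t : ℕ) : ℤ)

/-- One-dimensional injectivity on periodic sequences. -/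
def Inj1 (φ : Fin 3 → Fin 3 → Fin 3 → Fin 3) : Prop :=
  ∀ y y' : ℤ → Fin 3,
    (∀ t, φ (y (t - 1)) (y t) (y (t + 1)) = φ (y' (t - 1)) (y' t) (y' (t + 1))) → y = y'

/-- periodic sequence from a word -/
def per (n : ℕ) (w : List (Fin 3)) (t : ℤ) : Fin 3 := w.getD (t % n).toNat 0

theorem per_periodic (n : ℕ) (w : List (Fin 3)) (t : ℤ) : per n w (t + n) = per n w t := by
  simp [per]

theorem per_emod (n : ℕ) (w : List (Fin 3)) (t : ℤ) : per n w t = per n w (t % n) := by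
  simp [per]

section

variable {φ : Fin 3 → Fin 3 → Fin 3 → Fin 3}

theorem cyc1 (h : NC1 φ) (a : Fin 3) : φ a a a = a := by
  have h1 := h 1 (by norm_num) (fun _ => a) (fun _ => rfl)
  have h2 : Finset.Ico (0 : ℤ) ((1 : ℕ) : ℤ) = {0} := by decide
  rw [h2] at h1
  simp only [Finset.sum_singleton] at h1
  apply Fin.ext
  exact_mod_cast h1

theorem cyc3 (h : NC1 φ) (a b c : Fin 3) :
    ((φ c a b : ℕ) : ℤ) + (φ a b c : ℕ) + (φ b c a : ℕ) = (a : ℕ) + (b : ℕ) + (c : ℕ) := by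
  have h1 := h 3 (by norm_num) (per 3 [a, b, c]) (per_periodic 3 _)
  have h2 : Finset.Ico (0 : ℤ) ((3 : ℕ) : ℤ) = {0, 1, 2} := by decide
  rw [h2] at h1
  simp [per] at h1
  linarith

theorem cyc4 (h : NC1 φ) (a b c d : Fin 3) :
    ((φ d a b : ℕ) : ℤ) + (φ a b c : ℕ) + (φ b c d : ℕ) + (φ c d a : ℕ)
      = (a : ℕ) + (b : ℕ) + (c : ℕ) + (d : ℕ) := by
  have h1 := h 4 (by norm_num) (per 4 [a, b, c, d]) (per_periodic 4 _)
  have h2 : Finset.Ico (0 : ℤ) ((4 : ℕ) : ℤ) = {0, 1, 2, 3} := by decide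
  rw [h2] at h1
  simp [per] at h1
  linarith

theorem cyc5 (h : NC1 φ) (a b c d e : Fin 3) :
    ((φ e a b : ℕ) : ℤ) + (φ a b c : ℕ) + (φ b c d : ℕ) + (φ c d e : ℕ) + (φ d e a : ℕ)
      = (a : ℕ) + (b : ℕ) + (c : ℕ) + (d : ℕ) + (e : ℕ) := by
  have h1 := h 5 (by norm_num) (per 5 [a, b, c, d, e]) (per_periodic 5 _)
  have h2 : Finset.Ico (0 : ℤ) ((5 : ℕ) : ℤ) = {0, 1, 2, 3, 4} := by decide
  rw [h2] at h1
  simp [per] at h1
  linarith

/-- The formula for the rule in terms of `φ 0 _ _`. -/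
theorem formula (h : NC1 φ) (a b c : Fin 3) :
    ((φ a b c : ℕ) : ℤ) = (a : ℕ) + (φ 0 b c : ℕ) + (φ 0 0 b : ℕ) - (φ 0 a b : ℕ) - (φ 0 0 a : ℕ) := by
  have e1a := cyc3 h a 0 0
  have e1c := cyc3 h c 0 0
  have e2 := cyc5 h c 0 a 0 0
  have e3 := cyc4 h a b c 0
  have e4 := cyc4 h b c 0 0
  simp only [Fin.val_zero, Nat.cast_zero, add_zero] at *
  linarith

theorem inj2 (h : Inj1 φ) {a b a' b' : Fin 3} (h1 : φ b a b = φ b' a' b')
    (h2 : φ a b a = φ a' b' a') : a = a' ∧ b = b' := by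
  have key := h (per 2 [a, b]) (per 2 [a', b']) (by
    intro t
    have ht : t % 2 = 0 ∨ t % 2 = 1 := by omega
    rcases ht with ht | ht
    · have e1 : (t - 1) % 2 = 1 := by omega
      have e2 : (t + 1) % 2 = 1 := by omega
      simp [per, ht, e1, e2, h1]
    · have e1 : (t - 1) % 2 = 0 := by omega
      have e2 : (t + 1) % 2 = 0 := by omega
      simp [per, ht, e1, e2, h2])
  have k0 := congrFun key 0
  have k1 := congrFun key 1
  simp [per] at k0 k1
  exact ⟨k0, k1⟩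

theorem inj3 (h : Inj1 φ) {a b c a' b' c' : Fin 3} (h1 : φ c a b = φ c' a' b')
    (h2 : φ a b c = φ a' b' c') (h3 : φ b c a = φ b' c' a') : a = a' ∧ b = b' ∧ c = c' := by
  have key := h (per 3 [a, b, c]) (per 3 [a', b', c']) (by
    intro t
    have ht : t % 3 = 0 ∨ t % 3 = 1 ∨ t % 3 = 2 := by omega
    rcases ht with ht | ht | ht
    · have e1 : (t - 1) % 3 = 2 := by omega
      have e2 : (t + 1) % 3 = 1 := by omega
      simp [per, ht, e1, e2, h1]
    · have e1 : (t - 1) % 3 = 0 := by omega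
      have e2 : (t + 1) % 3 = 2 := by omega
      simp [per, ht, e1, e2, h2]
    · have e1 : (t - 1) % 3 = 1 := by omega
      have e2 : (t + 1) % 3 = 0 := by omega
      simp [per, ht, e1, e2, h3])
  have k0 := congrFun key 0
  have k1 := congrFun key 1
  have k2 := congrFun key 2
  simp [per] at k0 k1 k2
  exact ⟨k0, k1, k2⟩

theorem inj4 (h : Inj1 φ) {a b c d a' b' c' d' : Fin 3} (h1 : φ d a b = φ d' a' b')
    (h2 : φ a b c = φ a' b' c') (h3 : φ b c d = φ b' c' d') (h4 : φ c d a = φ c' d' a') :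
    a = a' ∧ b = b' ∧ c = c' ∧ d = d' := by
  have key := h (per 4 [a, b, c, d]) (per 4 [a', b', c', d']) (by
    intro t
    have ht : t % 4 = 0 ∨ t % 4 = 1 ∨ t % 4 = 2 ∨ t % 4 = 3 := by omega
    rcases ht with ht | ht | ht | ht
    · have e1 : (t - 1) % 4 = 3 := by omega
      have e2 : (t + 1) % 4 = 1 := by omega
      simp [per, ht, e1, e2, h1]
    · have e1 : (t - 1) % 4 = 0 := by omega
      have e2 : (t + 1) % 4 = 2 := by omega
      simp [per, ht, e1, e2, h2]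
    · have e1 : (t - 1) % 4 = 1 := by omega
      have e2 : (t + 1) % 4 = 3 := by omega
      simp [per, ht, e1, e2, h3]
    · have e1 : (t - 1) % 4 = 2 := by omega
      have e2 : (t + 1) % 4 = 0 := by omega
      simp [per, ht, e1, e2, h4])
  have k0 := congrFun key 0
  have k1 := congrFun key 1
  have k2 := congrFun key 2
  have k3 := congrFun key 3
  simp [per] at k0 k1 k2 k3
  exact ⟨k0, k1, k2, k3⟩

/-! ### Extraction from the Boolean check -/

theorem all3_of {p : ℕ → Bool} (h : all3 p = true) (a : Fin 3) : p a = true := by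
  simp only [all3, Bool.and_eq_true] at h
  fin_cases a
  · exact h.1
  · exact h.2.1
  · exact h.2.2

theorem of_all3 {p : ℕ → Bool} (h : ∀ a : Fin 3, p a = true) : all3 p = true := by
  simp only [all3, Bool.and_eq_true]
  exact ⟨h 0, h 1, h 2⟩

theorem any3_of {p : ℕ → Bool} (h : any3 p = true) : ∃ a : Fin 3, p a = true := by
  simp only [any3, Bool.or_eq_true] at h
  rcases h with h | h | h
  · exact ⟨0, h⟩
  · exact ⟨1, h⟩
  · exact ⟨2, h⟩

/-- The table of the rule. -/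
def tb (φ : Fin 3 → Fin 3 → Fin 3 → Fin 3) (b c : ℕ) : ℕ :=
  tv (φ 0 0 1) (φ 0 0 2) (φ 0 1 0) (φ 0 1 1) (φ 0 1 2) (φ 0 2 0) (φ 0 2 1) (φ 0 2 2) b c

theorem tb_eq (h : NC1 φ) (b c : Fin 3) : tb φ b c = φ 0 b c := by
  have h0 : (φ 0 0 0 : ℕ) = 0 := by rw [cyc1 h 0]; rfl
  fin_cases b <;> fin_cases c <;> simp [tb, tv, h0]

theorem pv_eq (h : NC1 φ) (a b c : Fin 3) : pv (tb φ) a b c = φ a b c := by
  have h1 := formula h a b c
  have hz : tb φ 0 b = φ 0 0 b := tb_eq h 0 b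
  have hz' : tb φ 0 a = φ 0 0 a := tb_eq h 0 a
  unfold pv
  rw [tb_eq h b c, tb_eq h a b, hz, hz']
  omega

theorem rng_eq (h : NC1 φ) : rngAll (tb φ) = true := by
  apply of_all3; intro a
  apply of_all3; intro b
  apply of_all3; intro c
  have h1 := formula h a b c
  have hz : tb φ 0 b = φ 0 0 b := tb_eq h 0 b
  have hz' : tb φ 0 a = φ 0 0 a := tb_eq h 0 a
  have h3 := (φ a b c).isLt
  unfold rng
  rw [tb_eq h b c, tb_eq h a b, hz, hz']
  simp only [Bool.and_eq_true, Nat.ble_eq]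
  constructor <;> omega

theorem oneD (h : NC1 φ) (hi : Inj1 φ) :
    (∀ a b c, φ a b c = a) ∨ (∀ a b c, φ a b c = b) ∨ (∀ a b c, φ a b c = c) := by
  have hg : good (tb φ) = true :=
    all3_of (all3_of (all3_of (all3_of (all3_of (all3_of (all3_of (all3_of checkAll_eq
      (φ 0 0 1)) (φ 0 0 2)) (φ 0 1 0)) (φ 0 1 1)) (φ 0 1 2)) (φ 0 2 0)) (φ 0 2 1)) (φ 0 2 2)
  simp only [good, rng_eq h, Bool.not_true, Bool.false_or, Bool.or_eq_true] at hg
  rcases hg with hg | hg | hg | hg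
  · simp only [triv, Bool.or_eq_true] at hg
    rcases hg with hg | hg | hg
    · left
      intro a b c
      have := all3_of (all3_of (all3_of hg a) b) c
      rw [pv_eq h, Nat.beq_eq] at this
      exact Fin.ext this
    · right; left
      intro a b c
      have := all3_of (all3_of (all3_of hg a) b) c
      rw [pv_eq h, Nat.beq_eq] at this
      exact Fin.ext this
    · right; right
      intro a b c
      have := all3_of (all3_of (all3_of hg a) b) c
      rw [pv_eq h, Nat.beq_eq] at this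
      exact Fin.ext this
  · exfalso
    obtain ⟨a, hg⟩ := any3_of hg
    obtain ⟨b, hg⟩ := any3_of hg
    obtain ⟨a', hg⟩ := any3_of hg
    obtain ⟨b', hg⟩ := any3_of hg
    simp only [Bool.and_eq_true, Bool.not_eq_true', pv_eq h, Nat.beq_eq] at hg
    obtain ⟨⟨h1, h2⟩, h3⟩ := hg
    obtain ⟨e1, e2⟩ := inj2 hi (Fin.ext h1) (Fin.ext h2)
    subst e1; subst e2
    simp at h3
  · exfalso
    obtain ⟨a, hg⟩ := any3_of hg
    obtain ⟨b, hg⟩ := any3_of hg
    obtain ⟨c, hg⟩ := any3_of hg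
    obtain ⟨a', hg⟩ := any3_of hg
    obtain ⟨b', hg⟩ := any3_of hg
    obtain ⟨c', hg⟩ := any3_of hg
    simp only [Bool.and_eq_true, Bool.not_eq_true', pv_eq h, Nat.beq_eq] at hg
    obtain ⟨⟨h1, h2, h3⟩, h4⟩ := hg
    obtain ⟨e1, e2, e3⟩ := inj3 hi (Fin.ext h1) (Fin.ext h2) (Fin.ext h3)
    subst e1; subst e2; subst e3
    simp at h4
  · exfalso
    obtain ⟨a, hg⟩ := any3_of hg
    obtain ⟨b, hg⟩ := any3_of hg
    obtain ⟨c, hg⟩ := any3_of hg
    obtain ⟨d, hg⟩ := any3_of hg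
    obtain ⟨a', hg⟩ := any3_of hg
    obtain ⟨b', hg⟩ := any3_of hg
    obtain ⟨c', hg⟩ := any3_of hg
    obtain ⟨d', hg⟩ := any3_of hg
    simp only [Bool.and_eq_true, Bool.not_eq_true', pv_eq h, Nat.beq_eq] at hg
    obtain ⟨⟨h1, h2, h3, h4⟩, h5⟩ := hg
    obtain ⟨e1, e2, e3, e4⟩ := inj4 hi (Fin.ext h1) (Fin.ext h2) (Fin.ext h3) (Fin.ext h4)
    subst e1; subst e2; subst e3; subst e4
    simp at h5

end

end Pool.Agent.W_MP_944d6d_mp
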