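import Mathlib
import Pool.Agent.W_MP_944d6d_mp.Geom
import Pool.Agent.W_MP_944d6d_mp.OneD

set_option autoImplicit false

namespace Pool.Agent.W_MP_944d6d_mp

variable {d : ℕ} {F : Config d → Config d}

/-- Locality. -/
theorem loc (hF : IsNeumannCA F) {x y : Config d} {v w : Fin d → ℤ}
    (h : ∀ u ∈ neumann d, x (v + u) = y (w + u)) : F x v = F y w := by
  obtain ⟨f, hf⟩ := hF
  rw [hf, hf]
  congr 1
  funext u
  exact h u u.2

/-- The box `[-2,2]^d`. -/
noncomputable def box2 (d : ℕ) : Finset (Fin d → ℤ) := Fintype.piFinset (fun _ => Finset.Icc (-2 : ℤ) 2)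

theorem mem_box2 {v : Fin d → ℤ} : v ∈ box2 d ↔ ∀ i, -2 ≤ v i ∧ v i ≤ 2 := by
  simp [box2, Fintype.mem_piFinset]

/-- Number conservation for a configuration supported in `[-1,1]^d`. -/
theorem nc_box (hF : IsNeumannCA F) (hNC : NumberConserving F) {X : Config d}
    (hX : ∀ v, X v ≠ 0 → ∀ i, |v i| ≤ 1) :
    ∑ v ∈ box2 d, ((F X v : ℕ) : ℤ) = ∑ v ∈ box2 d, ((X v : ℕ) : ℤ) := by
  let Y : Config d := fun v => X (fun i => (v i) % 5 - 2)
  have hYper : ∀ (i : Fin d) (v : Fin d → ℤ), Y (v + Pi.single i ((5 : ℕ) : ℤ)) = Y v := by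
    intro i v
    show X _ = X _
    congr 1
    funext j
    by_cases hj : j = i
    · subst hj
      simp
    · simp [hj]
  have h1 := hNC (fun _ => 5) (fun _ => by norm_num) Y hYper
  have hY : ∀ z : Fin d → ℤ, (∀ i, |z i| ≤ 3) → Y (z + fun _ => 2) = X z := by
    intro z hz
    show X (fun i => (z i + 2) % 5 - 2) = X z
    by_cases hc : ∀ i, |z i| ≤ 2
    · congr 1
      funext i
      have := abs_le.1 (hc i)
      omega
    · push Not at hc
      obtain ⟨i, hi⟩ := hc
      have hzi : |z i| = 3 := le_antisymm (hz i) (by omega)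
      have e1 : X z = 0 := by
        by_contra hne
        have := hX z hne i
        omega
      have e2 : X (fun i => (z i + 2) % 5 - 2) = 0 := by
        by_contra hne
        have h2 := hX _ hne i
        have h3 := abs_le.1 h2
        rcases abs_eq (by norm_num : (0 : ℤ) ≤ 3) |>.1 hzi with h4 | h4 <;> rw [h4] at h3 <;> omega
      rw [e1, e2]
  have hbox : ∀ G : (Fin d → ℤ) → ℤ,
      ∑ v ∈ Fintype.piFinset (fun _ : Fin d => Finset.Ico (0 : ℤ) ((5 : ℕ) : ℤ)), G v
        = ∑ v ∈ box2 d, G (v + fun _ => 2) := by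
    intro G
    apply Finset.sum_nbij' (fun v => v - fun _ => 2) (fun v => v + fun _ => 2)
    · intro v hv
      rw [mem_box2]
      intro i
      have := Fintype.mem_piFinset.1 hv i
      simp only [Finset.mem_Ico] at this
      simp only [Pi.sub_apply]
      omega
    · intro v hv
      rw [Fintype.mem_piFinset]
      intro i
      have := mem_box2.1 hv i
      simp only [Finset.mem_Ico, Pi.add_apply]
      omega
    · intro v _; simp
    · intro v _; simp
    · intro v _; simp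
  have h2 : ∑ v ∈ Fintype.piFinset (fun _ : Fin d => Finset.Ico (0 : ℤ) ((5 : ℕ) : ℤ)),
      ((F Y v : ℕ) : ℤ) = ∑ v ∈ Fintype.piFinset (fun _ : Fin d => Finset.Ico (0 : ℤ)
        ((5 : ℕ) : ℤ)), ((Y v : ℕ) : ℤ) := by
    exact_mod_cast h1
  rw [hbox, hbox] at h2
  have e1 : ∑ v ∈ box2 d, ((F Y (v + fun _ => 2) : ℕ) : ℤ) = ∑ v ∈ box2 d, ((F X v : ℕ) : ℤ) := by
    apply Finset.sum_congr rfl
    intro v hv
    have hv' := mem_box2.1 hv
    rw [loc hF (x := Y) (y := X) (v := v + fun _ => 2) (w := v)]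
    intro u hu
    have : v + (fun _ => 2) + u = (v + u) + fun _ => 2 := by abel
    rw [this]
    apply hY
    intro i
    have h3 := abs_le.1 (abs_le_one_of_mem hu i)
    have h4 := hv' i
    rw [Pi.add_apply, abs_le]
    omega
  have e2 : ∑ v ∈ box2 d, ((Y (v + fun _ => 2) : ℕ) : ℤ) = ∑ v ∈ box2 d, ((X v : ℕ) : ℤ) := by
    apply Finset.sum_congr rfl
    intro v hv
    have hv' := mem_box2.1 hv
    rw [hY]
    intro i
    have h4 := hv' i
    rw [abs_le]
    omega
  rw [e1, e2] at h2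
  exact h2

/-- Translation of a configuration. -/
def tr (z : Fin d → ℤ) (X : Config d) : Config d := fun w => X (z + w)

/-- The defect with respect to the shift by `u₀`. -/
def dl (F : Config d → Config d) (u₀ : Fin d → ℤ) (X : Config d) : ℤ :=
  ((F X 0 : ℕ) : ℤ) - ((X u₀ : ℕ) : ℤ)

theorem F_tr (hF : IsNeumannCA F) (z : Fin d → ℤ) (X : Config d) : F (tr z X) 0 = F X z := by
  apply loc hF
  intro u _
  simp [tr]

theorem dl_congr (hF : IsNeumannCA F) {u₀ : Fin d → ℤ} (hu₀ : u₀ ∈ neumann d) {X Y : Config d}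
    (h : ∀ u ∈ neumann d, X u = Y u) : dl F u₀ X = dl F u₀ Y := by
  unfold dl
  rw [h u₀ hu₀, loc hF (x := X) (y := Y) (v := 0) (w := 0)]
  intro u hu
  simpa using h u hu

theorem sum_dl (hF : IsNeumannCA F) (hNC : NumberConserving F) {u₀ : Fin d → ℤ}
    (hu₀ : u₀ ∈ neumann d) {X : Config d} (hX : ∀ v, X v ≠ 0 → ∀ i, |v i| ≤ 1) :
    ∑ z ∈ box2 d, dl F u₀ (tr z X) = 0 := by
  have h1 := nc_box hF hNC hX
  have h2 : ∑ z ∈ box2 d, ((X (z + u₀) : ℕ) : ℤ) = ∑ z ∈ box2 d, ((X z : ℕ) : ℤ) := by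
    apply Finset.sum_bij_ne_zero (fun z _ _ => z + u₀)
    · intro z hz hne
      rw [mem_box2]
      intro i
      have h3 : X (z + u₀) ≠ 0 := by
        intro h; apply hne; rw [h]; rfl
      have h4 := abs_le.1 (hX _ h3 i)
      omega
    · intro z1 _ _ z2 _ _ h
      exact add_right_cancel h
    · intro z hz hne
      have h3 : X z ≠ 0 := by
        intro h; apply hne; rw [h]; rfl
      refine ⟨z - u₀, ?_, ?_, ?_⟩
      · rw [mem_box2]
        intro i
        have h4 := abs_le.1 (hX _ h3 i)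
        have h5 := abs_le.1 (abs_le_one_of_mem hu₀ i)
        rw [Pi.sub_apply]
        omega
      · rw [sub_add_cancel]; exact hne
      · rw [sub_add_cancel]
    · intro z _ _; rfl
  unfold dl
  rw [Finset.sum_sub_distrib]
  have h3 : ∑ z ∈ box2 d, ((F (tr z X) 0 : ℕ) : ℤ) = ∑ z ∈ box2 d, ((F X z : ℕ) : ℤ) := by
    apply Finset.sum_congr rfl
    intro z _
    rw [F_tr hF]
  have h4 : ∑ z ∈ box2 d, ((tr z X u₀ : ℕ) : ℤ) = ∑ z ∈ box2 d, ((X (z + u₀) : ℕ) : ℤ) := rfl
  rw [h3, h4, h1, h2, sub_self]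

end Pool.Agent.W_MP_944d6d_mp
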