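import Mathlib
import Pool.Agent.W_MP_944d6d_mp.Basic

set_option autoImplicit false

namespace Pool.Agent.W_MP_944d6d_mp

variable {d : ℕ} {F : Config d → Config d}

/-- The hypothesis that all the one-dimensional restrictions are the shift by `u₀`. -/
def HH (F : Config d → Config d) (u₀ : Fin d → ℤ) : Prop :=
  ∀ (X : Config d) (i : Fin d), (∀ u ∈ neumann d, u i = 0 → X u = X 0) → dl F u₀ X = 0

theorem supp_neumann {X : Config d} (hX : ∀ v, X v ≠ 0 → v ∈ neumann d) :
    ∀ v, X v ≠ 0 → ∀ i, |v i| ≤ 1 := fun v hv i => abs_le_one_of_mem (hX v hv) i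

theorem mem_box2_of_mem {z : Fin d → ℤ} (hz : z ∈ neumann d) : z ∈ box2 d := by
  rw [mem_box2]
  intro i
  have := abs_le.1 (abs_le_one_of_mem hz i)
  omega

theorem mem_box2_of_add {z w : Fin d → ℤ} (hz : z ∈ neumann d) (hw : w ∈ neumann d) :
    z + w ∈ box2 d := by
  rw [mem_box2]
  intro i
  have h1 := abs_le.1 (abs_le_one_of_mem hz i)
  have h2 := abs_le.1 (abs_le_one_of_mem hw i)
  rw [Pi.add_apply]
  omega

theorem exists_ne {z : Fin d → ℤ} (hz : z ≠ 0) : ∃ i, z i ≠ 0 := by
  by_contra h
  push Not at h
  exact hz (funext h)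

section

variable (hF : IsNeumannCA F) (hNC : NumberConserving F) {u₀ : Fin d → ℤ}
  (hu₀ : u₀ ∈ neumann d) (hd : 1 ≤ d) (hH : HH F u₀)

include hF hNC hu₀ hd hH

/-- (S1): patterns with at most one nonzero cell. -/
theorem dl_single {X : Config d} (w : Fin d → ℤ)
    (hX : ∀ u ∈ neumann d, u ≠ w → X u = 0) : dl F u₀ X = 0 := by
  have i0 : Fin d := ⟨0, hd⟩
  by_cases hw : w = 0
  · subst hw
    let Y : Config d := fun v => if v = 0 then X 0 else 0
    have hXY : dl F u₀ X = dl F u₀ Y := by
      apply dl_congr hF hu₀
      intro u hu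
      by_cases h : u = 0
      · simp [Y, h]
      · simp [Y, h, hX u hu h]
    have hYs : ∀ v, Y v ≠ 0 → v ∈ neumann d := by
      intro v hv
      by_cases h : v = 0
      · rw [h]; exact zero_mem_neumann
      · simp [Y, h] at hv
    have hsum := sum_dl hF hNC hu₀ (supp_neumann hYs)
    rw [Finset.sum_eq_single 0] at hsum
    · rw [hXY]
      have : tr 0 Y = Y := by
        funext v; simp [tr]
      rwa [this] at hsum
    · intro z _ hz
      obtain ⟨i, hi⟩ := exists_ne hz
      apply hH _ i
      intro u _ hui
      have h1 : z + u ≠ 0 := by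
        intro h
        have := congrFun h i
        rw [Pi.add_apply, hui, add_zero] at this
        exact hi this
      have h2 : z + 0 ≠ 0 := by simpa using hz
      simp only [tr, Y, h1, h2, if_false]
    · intro h
      exact absurd (mem_box2_of_mem zero_mem_neumann) h
  · obtain ⟨i, hi⟩ := exists_ne hw
    apply hH _ i
    intro u hu hui
    rw [hX u hu, hX 0 zero_mem_neumann (Ne.symm hw)]
    intro h
    rw [h] at hui
    exact hi hui

/-- relation for two cells -/
theorem dl_pair_rel {v w : Fin d → ℤ} (hv : v ∈ neumann d) (hw : w ∈ neumann d) (hvw : v ≠ w)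
    (hs : v + w ≠ 0) {X Y : Config d}
    (hX : ∀ u ∈ neumann d, u ≠ v → u ≠ w → X u = 0)
    (hY : ∀ u ∈ neumann d, u ≠ -w → u ≠ -v → Y u = 0)
    (h1 : Y (-w) = X v) (h2 : Y (-v) = X w) : dl F u₀ X + dl F u₀ Y = 0 := by
  let Z : Config d := fun z => if z = v then X v else if z = w then X w else 0
  have hZs : ∀ v, Z v ≠ 0 → v ∈ neumann d := by
    intro z hz
    by_cases h : z = v
    · rw [h]; exact hv
    · by_cases h' : z = w
      · rw [h']; exact hw
      · simp [Z, h, h'] at hz
  have hXZ : dl F u₀ X = dl F u₀ (tr 0 Z) := by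
    apply dl_congr hF hu₀
    intro u hu
    by_cases h : u = v
    · simp [tr, Z, h]
    · by_cases h' : u = w
      · simp [tr, Z, h', Ne.symm hvw]
      · simp [tr, Z, h, h', hX u hu h h']
  have hYZ : dl F u₀ Y = dl F u₀ (tr (v + w) Z) := by
    apply dl_congr hF hu₀
    intro u hu
    by_cases h : u = -w
    · subst h
      have e : v + w + -w = v := by abel
      simp only [tr, e, Z, if_true]
      exact h1
    · by_cases h' : u = -v
      · subst h'
        have e : v + w + -v = w := by abel
        simp only [tr, e, Z, Ne.symm hvw, if_false, if_true]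
        exact h2
      · rw [hY u hu h h']
        have e1 : v + w + u ≠ v := by
          intro hh
          apply h
          have : w + u = 0 := by
            have h3 : v + (w + u) = v + 0 := by rw [← add_assoc, hh, add_zero]
            exact add_left_cancel h3
          rw [add_comm] at this
          exact eq_neg_of_add_eq_zero_left this
        have e2 : v + w + u ≠ w := by
          intro hh
          apply h'
          have : v + u = 0 := by
            have h3 : w + (v + u) = w + 0 := by
              rw [← add_assoc, add_comm w v, hh, add_zero]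
            exact add_left_cancel h3
          rw [add_comm] at this
          exact eq_neg_of_add_eq_zero_left this
        simp only [tr, Z, e1, e2, if_false]
  rw [hXZ, hYZ]
  have hsum := sum_dl hF hNC hu₀ (supp_neumann hZs)
  have hsub : ({0, v + w} : Finset (Fin d → ℤ)) ⊆ box2 d := by
    intro z hz
    rw [Finset.mem_insert, Finset.mem_singleton] at hz
    rcases hz with hz | hz
    · rw [hz]; exact mem_box2_of_mem zero_mem_neumann
    · rw [hz]; exact mem_box2_of_add hv hw
  rw [← Finset.sum_subset hsub, Finset.sum_pair (Ne.symm hs)] at hsum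
  · exact hsum
  · intro z _ hz
    rw [Finset.mem_insert, Finset.mem_singleton] at hz
    push Not at hz
    obtain ⟨hz0, hzs⟩ := hz
    by_cases hvz : v - z ∈ neumann d
    · by_cases hwz : w - z ∈ neumann d
      · exfalso
        have e : v + (w - z) = w + (v - z) := by abel
        have e0 : v + (w - z) ≠ 0 := by
          intro h
          apply hzs
          have : v + w - z = 0 := by rw [← h]; abel
          exact (sub_eq_zero.1 this).symm
        rcases pair_unique hv hwz hw hvz e e0 with ⟨h, _⟩ | ⟨h, _⟩
        · exact hvw h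
        · apply hz0
          have : v - z = v - 0 := by rw [← h, sub_zero]
          exact sub_right_injective this
      · apply dl_single hF hNC hu₀ hd hH (v - z)
        intro u hu hne
        have e1 : z + u ≠ v := by
          intro h; apply hne; rw [← h]; abel
        have e2 : z + u ≠ w := by
          intro h; apply hwz; rw [← h]
          have : z + u - z = u := by abel
          rw [this]; exact hu
        simp only [tr, Z, e1, e2, if_false]
    · apply dl_single hF hNC hu₀ hd hH (w - z)
      intro u hu hne
      have e1 : z + u ≠ v := by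
        intro h; apply hvz; rw [← h]
        have : z + u - z = u := by abel
        rw [this]; exact hu
      have e2 : z + u ≠ w := by
        intro h; apply hne; rw [← h]; abel
      simp only [tr, Z, e1, e2, if_false]

omit hF hNC hu₀ hd hH in
theorem dl_nonneg {X : Config d} (h : X u₀ = 0) : 0 ≤ dl F u₀ X := by
  unfold dl
  rw [h]
  simp

/-- (2d) -/
theorem dl_pair_neg (h0 : u₀ ≠ 0) {w : Fin d → ℤ} (hw : w ∈ neumann d) (hw1 : w ≠ u₀)
    (hw2 : w ≠ -u₀) {Y : Config d}
    (hY : ∀ u ∈ neumann d, u ≠ -w → u ≠ -u₀ → Y u = 0) : dl F u₀ Y = 0 := by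
  classical
  have hu₀n : u₀ ≠ -u₀ := by
    obtain ⟨i, hi⟩ := exists_ne h0
    intro h
    have := congrFun h i
    rw [Pi.neg_apply] at this
    omega
  let X : Config d := fun z => if z = u₀ then Y (-w) else if z = -u₀ then 0 else
    if z ∈ neumann d then Y (-u₀) else 0
  have hXs : ∀ v, X v ≠ 0 → v ∈ neumann d := by
    intro z hz
    by_cases h : z = u₀
    · rw [h]; exact hu₀
    · by_cases h' : z = -u₀
      · rw [h']; exact neg_mem_neumann hu₀
      · by_cases h'' : z ∈ neumann d
        · exact h''
        · simp [X, h, h', h''] at hz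
  have hsum := sum_dl hF hNC hu₀ (supp_neumann hXs)
  have hnn : ∀ z ∈ box2 d, 0 ≤ dl F u₀ (tr z X) := by
    intro z _
    by_cases hz0 : z = 0
    · subst hz0
      obtain ⟨i, hi⟩ := exists_ne h0
      have : dl F u₀ (tr 0 X) = 0 := by
        apply hH _ i
        intro u hu hui
        have e1 : u ≠ u₀ := by intro h; rw [h] at hui; exact hi hui
        have e2 : u ≠ -u₀ := by
          intro h; rw [h, Pi.neg_apply] at hui; exact hi (neg_eq_zero.1 hui)
        have e3 : (0 : Fin d → ℤ) ≠ u₀ := Ne.symm h0
        have e4 : (0 : Fin d → ℤ) ≠ -u₀ := by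
          intro h; apply h0; exact (neg_eq_zero.1 h.symm)
        simp [tr, X, e1, e2, e3, e4, hu, zero_mem_neumann]
      rw [this]
    · by_cases hzu : X (z + u₀) = 0
      · exact dl_nonneg hzu
      · have hzn := hXs _ hzu
        have hzne : z + u₀ ≠ -u₀ := by
          intro h; apply hzu; rw [h]
          simp [X, Ne.symm hu₀n]
        have : dl F u₀ (tr z X) = 0 := by
          apply dl_single hF hNC hu₀ hd hH u₀
          intro u hu hne
          by_contra hne2
          have hzu' : z + u ∈ neumann d := hXs _ hne2
          have e : u₀ + (z + u) = u + (z + u₀) := by abel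
          by_cases e0 : u₀ + (z + u) = 0
          · apply hne2
            have h3 : z + u = -u₀ := by
              rw [add_comm] at e0
              exact eq_neg_of_add_eq_zero_left e0
            show X (z + u) = 0
            rw [h3]
            simp [X, Ne.symm hu₀n]
          · rcases pair_unique hu₀ hzu' hu hzn e e0 with ⟨h, _⟩ | ⟨h, _⟩
            · exact hne h.symm
            · apply hz0
              have : z + u₀ = 0 + u₀ := by rw [← h, zero_add]
              exact add_right_cancel this
        rw [this]
  have hall := (Finset.sum_eq_zero_iff_of_nonneg hnn).1 hsum (u₀ + w) (mem_box2_of_add hu₀ hw)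
  have hYX : dl F u₀ Y = dl F u₀ (tr (u₀ + w) X) := by
    apply dl_congr hF hu₀
    intro u hu
    by_cases h : u = -w
    · subst h
      have e : u₀ + w + -w = u₀ := by abel
      simp only [tr, e, X, if_true]
    · by_cases h' : u = -u₀
      · subst h'
        have e : u₀ + w + -u₀ = w := by abel
        simp only [tr, e, X, hw1, hw2, hw, if_false, if_true]
      · rw [hY u hu h h']
        by_contra hne
        have hmem : u₀ + w + u ∈ neumann d := hXs _ (Ne.symm hne)
        have e : u₀ + w = (u₀ + w + u) + (-u) := by abel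
        have e0 : u₀ + w ≠ 0 := by
          intro h3; apply hw2
          rw [add_comm] at h3
          exact eq_neg_of_add_eq_zero_left h3
        rcases pair_unique hu₀ hw hmem (neg_mem_neumann hu) e e0 with ⟨_, h3⟩ | ⟨h3, _⟩
        · apply h; rw [h3, neg_neg]
        · apply h'; rw [h3, neg_neg]
  rw [hYX]
  exact hall

/-- two-cell patterns when `u₀ ≠ 0` -/
theorem dl_pair_of_ne (h0 : u₀ ≠ 0) {v w : Fin d → ℤ} (hv : v ∈ neumann d) (hw : w ∈ neumann d)
    (hvw : v ≠ w) (hs : v + w ≠ 0) {X : Config d}
    (hX : ∀ u ∈ neumann d, u ≠ v → u ≠ w → X u = 0) : dl F u₀ X = 0 := by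
  -- the case where `-u₀` is among the cells
  have key : ∀ {v w : Fin d → ℤ}, v ∈ neumann d → w ∈ neumann d → v ≠ w → v + w ≠ 0 →
      ∀ {X : Config d}, (∀ u ∈ neumann d, u ≠ v → u ≠ w → X u = 0) →
      (v = -u₀ ∨ w = -u₀) → dl F u₀ X = 0 := by
    intro v w hv hw hvw hs X hX h
    rcases h with h | h
    · apply dl_pair_neg hF hNC hu₀ hd hH h0 (w := -w) (neg_mem_neumann hw)
      · intro h'
        apply hvw
        rw [h, ← h', neg_neg]
      · intro h'
        apply hs
        rw [h, ← h']; simp
      · intro u hu h1 h2
        rw [neg_neg] at h1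
        exact hX u hu (by rw [h]; exact h2) h1
    · apply dl_pair_neg hF hNC hu₀ hd hH h0 (w := -v) (neg_mem_neumann hv)
      · intro h'
        apply hvw
        rw [h, ← h', neg_neg]
      · intro h'
        apply hs
        rw [h, ← h']; simp
      · intro u hu h1 h2
        rw [neg_neg] at h1
        exact hX u hu h1 (by rw [h]; exact h2)
  -- the mirrored pattern
  let Y : Config d := fun z => if z = -w then X v else if z = -v then X w else 0
  have hnvw : (-v : Fin d → ℤ) ≠ -w := fun h => hvw (neg_injective h)
  have hY : ∀ u ∈ neumann d, u ≠ -w → u ≠ -v → Y u = 0 := by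
    intro u _ h1 h2
    simp [Y, h1, h2]
  have hrel := dl_pair_rel hF hNC hu₀ hd hH hv hw hvw hs hX hY (by simp [Y])
    (by simp only [Y, hnvw, if_false, if_true])
  by_cases h1 : v = -u₀ ∨ w = -u₀
  · exact key hv hw hvw hs hX h1
  · by_cases h2 : -w = -u₀ ∨ -v = -u₀
    · have h3 := key (neg_mem_neumann hw) (neg_mem_neumann hv) (Ne.symm hnvw)
        (by intro h; apply hs; have : -(v + w) = 0 := by rw [← h]; abel
            exact neg_eq_zero.1 this) hY h2
      rw [h3, add_zero] at hrel
      exact hrel
    · push Not at h1 h2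
      have n1 : 0 ≤ dl F u₀ X := by
        apply dl_nonneg
        apply hX u₀ hu₀
        · intro h; apply h2.2; rw [h]
        · intro h; apply h2.1; rw [h]
      have n2 : 0 ≤ dl F u₀ Y := by
        apply dl_nonneg
        apply hY u₀ hu₀
        · intro h; apply h1.2; rw [h, neg_neg]
        · intro h; apply h1.1; rw [h, neg_neg]
      omega

end

end Pool.Agent.W_MP_944d6d_mp
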