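import Mathlib
import Pool.Agent.W_MP_944d6d_mp.Core

set_option autoImplicit false

namespace Pool.Agent.W_MP_944d6d_mp

variable {d : ℕ} {F : Config d → Config d}

section Zero

variable (hF : IsNeumannCA F) (hNC : NumberConserving F) (hd : 1 ≤ d) (hH : HH F 0)

include hF hNC hd hH

/-- noncentral pairs when `u₀ = 0` -/
theorem dl_pair_noncentral {v w : Fin d → ℤ} (hv : v ∈ neumann d) (hw : w ∈ neumann d)
    (hvw : v ≠ w) (hs : v + w ≠ 0) (hv0 : v ≠ 0) (hw0 : w ≠ 0) {X : Config d}
    (hX : ∀ u ∈ neumann d, u ≠ v → u ≠ w → X u = 0) : dl F 0 X = 0 := by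
  let Y : Config d := fun z => if z = -w then X v else if z = -v then X w else 0
  have hnvw : (-v : Fin d → ℤ) ≠ -w := fun h => hvw (neg_injective h)
  have hY : ∀ u ∈ neumann d, u ≠ -w → u ≠ -v → Y u = 0 := by
    intro u _ h1 h2
    simp [Y, h1, h2]
  have hrel := dl_pair_rel hF hNC zero_mem_neumann hd hH hv hw hvw hs hX hY (by simp [Y])
    (by simp only [Y, hnvw, if_false, if_true])
  have n1 : 0 ≤ dl F 0 X := by
    apply dl_nonneg
    exact hX 0 zero_mem_neumann (Ne.symm hv0) (Ne.symm hw0)
  have n2 : 0 ≤ dl F 0 Y := by
    apply dl_nonneg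
    apply hY 0 zero_mem_neumann
    · intro h; exact hw0 (neg_eq_zero.1 h.symm)
    · intro h; exact hv0 (neg_eq_zero.1 h.symm)
  omega

/-- central pairs when `u₀ = 0` -/
theorem dl_pair_central {w : Fin d → ℤ} (hw : w ∈ neumann d) (hw0 : w ≠ 0) {X : Config d}
    (hX : ∀ u ∈ neumann d, u ≠ 0 → u ≠ -w → X u = 0) : dl F 0 X = 0 := by
  classical
  obtain ⟨i, hi⟩ := exists_ne hw0
  have hwn : w ≠ -w := by
    intro h
    have := congrFun h i
    rw [Pi.neg_apply] at this
    omega
  have hnw0 : -w ≠ 0 := fun h => hw0 (neg_eq_zero.1 h)
  have hnw : -w ∈ neumann d := neg_mem_neumann hw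
  let Z : Config d := fun z => if z = w then X 0 else if z = -w then 0 else
    if z ∈ neumann d then X (-w) else 0
  have hZs : ∀ v, Z v ≠ 0 → v ∈ neumann d := by
    intro z hz
    by_cases h : z = w
    · rw [h]; exact hw
    · by_cases h' : z = -w
      · rw [h']; exact hnw
      · by_cases h'' : z ∈ neumann d
        · exact h''
        · simp [Z, h, h', h''] at hz
  have hsum := sum_dl hF hNC zero_mem_neumann (supp_neumann hZs)
  -- the value at `w`
  have hXw : dl F 0 X = dl F 0 (tr w Z) := by
    apply dl_congr hF zero_mem_neumann
    intro u hu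
    by_cases h : u = 0
    · subst h
      simp [tr, Z]
    · by_cases h' : u = -w
      · subst h'
        simp [tr, Z, Ne.symm hw0, Ne.symm hnw0, zero_mem_neumann]
      · rw [hX u hu h h']
        by_contra hne
        have hmem : w + u ∈ neumann d := hZs _ (Ne.symm hne)
        have e : w + 0 = (w + u) + (-u) := by abel
        rcases pair_unique hw zero_mem_neumann hmem (neg_mem_neumann hu) e (by simpa using hw0)
          with ⟨_, h3⟩ | ⟨h3, _⟩
        · apply h
          exact neg_eq_zero.1 h3.symm
        · apply h'; rw [h3, neg_neg]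
  -- the value at `-w`
  have hXnw : dl F 0 (tr (-w) Z) = 0 := by
    apply dl_single hF hNC zero_mem_neumann hd hH w
    intro u hu hne
    by_contra hne2
    have hmem : -w + u ∈ neumann d := hZs _ hne2
    have e : -w + 0 = (-w + u) + (-u) := by abel
    rcases pair_unique hnw zero_mem_neumann hmem (neg_mem_neumann hu) e (by simpa using hnw0)
      with ⟨_, h3⟩ | ⟨h3, _⟩
    · have hu0 : u = 0 := neg_eq_zero.1 h3.symm
      apply hne2
      rw [hu0]
      simp [tr, Z, Ne.symm hwn]
    · apply hne; exact (neg_injective h3).symm
  -- the rest cancels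
  have hrest : ∑ z ∈ ((box2 d).erase w).erase (-w), dl F 0 (tr z Z) = 0 := by
    have hcancel : ∀ z ∈ ((box2 d).erase w).erase (-w),
        dl F 0 (tr z Z) + dl F 0 (tr (-z) Z) = 0 := by
      intro z hz
      rw [Finset.mem_erase, Finset.mem_erase] at hz
      obtain ⟨hznw, hzw, _⟩ := hz
      by_cases hz0 : z = 0
      · subst hz0
        have : dl F 0 (tr 0 Z) = 0 := by
          apply hH _ i
          intro u hu hui
          have e1 : u ≠ w := by intro h; rw [h] at hui; exact hi hui
          have e2 : u ≠ -w := by
            intro h; rw [h, Pi.neg_apply] at hui; exact hi (neg_eq_zero.1 hui)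
          simp [tr, Z, e1, e2, Ne.symm hw0, Ne.symm hnw0, hu, zero_mem_neumann]
        rw [neg_zero, this]; rfl
      · by_cases hzn : z ∈ neumann d
        · -- a neighbor
          have hnzn : -z ∈ neumann d := neg_mem_neumann hzn
          have hval : ∀ y : Fin d → ℤ, y ∈ neumann d → y ≠ 0 → y ≠ w → y ≠ -w →
              ∀ u ∈ neumann d, u ≠ 0 → u ≠ -y → tr y Z u = 0 := by
            intro y hy hy0 _ _ u hu hu0 huy
            by_contra hne2
            have hmem : y + u ∈ neumann d := hZs _ hne2
            have e : y + 0 = (y + u) + (-u) := by abel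
            rcases pair_unique hy zero_mem_neumann hmem (neg_mem_neumann hu) e
              (by simpa using hy0) with ⟨_, h3⟩ | ⟨h3, _⟩
            · exact hu0 (neg_eq_zero.1 h3.symm)
            · apply huy; rw [h3, neg_neg]
          have hnz0 : -z ≠ 0 := fun h => hz0 (neg_eq_zero.1 h)
          have hnzw : -z ≠ w := by intro h; apply hznw; rw [← h, neg_neg]
          have hnznw : -z ≠ -w := fun h => hzw (neg_injective h)
          have hc : ∀ y : Fin d → ℤ, y ∈ neumann d → y ≠ w → y ≠ -w → Z y = X (-w) := by
            intro y hy h1 h2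
            simp [Z, h1, h2, hy]
          apply dl_pair_rel hF hNC zero_mem_neumann hd hH (v := 0) (w := -z) zero_mem_neumann
            hnzn (Ne.symm hnz0) (by simpa using hnz0)
          · exact hval z hzn hz0 hzw hznw
          · intro u hu h1 h2
            rw [neg_neg] at h1
            rw [neg_zero] at h2
            exact hval (-z) hnzn hnz0 hnzw hnznw u hu h2 (by rw [neg_neg]; exact h1)
          · show Z (-z + -(-z)) = Z (z + 0)
            rw [add_neg_cancel, add_zero, hc z hzn hzw hznw,
              hc 0 zero_mem_neumann (Ne.symm hw0) (Ne.symm hnw0)]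
          · show Z (-z + -0) = Z (z + -z)
            rw [neg_zero, add_zero, add_neg_cancel, hc (-z) hnzn hnzw hnznw,
              hc 0 zero_mem_neumann (Ne.symm hw0) (Ne.symm hnw0)]
        · -- far away
          have hfar : ∀ y : Fin d → ℤ, y ∉ neumann d → dl F 0 (tr y Z) = 0 := by
            intro y hy
            by_cases hex : ∃ u ∈ neumann d, y + u ∈ neumann d
            · obtain ⟨u, hu, hyu⟩ := hex
              have hy0 : y ≠ 0 := by intro h; rw [h] at hy; exact hy zero_mem_neumann
              have hu0 : u ≠ 0 := by intro h; rw [h, add_zero] at hyu; exact hy hyu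
              have hyu0 : -(y + u) ≠ 0 := by
                intro h
                have h1 : y + u = 0 := neg_eq_zero.1 h
                apply hy
                rw [eq_neg_of_add_eq_zero_left h1]
                exact neg_mem_neumann hu
              have hsupp : ∀ u' ∈ neumann d, u' ≠ u → u' ≠ -(y + u) → tr y Z u' = 0 := by
                intro u' hu' h1 h2
                by_contra hne2
                have hmem : y + u' ∈ neumann d := hZs _ hne2
                have e : u + (y + u') = u' + (y + u) := by abel
                by_cases e0 : u + (y + u') = 0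
                · apply h2
                  have : u' + (y + u) = 0 := by rw [← e]; exact e0
                  exact eq_neg_of_add_eq_zero_left this
                · rcases pair_unique hu hmem hu' hyu e e0 with ⟨h3, _⟩ | ⟨h3, _⟩
                  · exact h1 h3.symm
                  · apply hy0
                    have h4 : y + u = 0 + u := by rw [← h3, zero_add]
                    exact add_right_cancel h4
              by_cases hq : u = -(y + u)
              · apply dl_single hF hNC zero_mem_neumann hd hH u
                intro u' hu' h1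
                exact hsupp u' hu' h1 (by rw [← hq]; exact h1)
              · apply dl_pair_noncentral hF hNC hd hH hu (neg_mem_neumann hyu) hq _ hu0 hyu0 hsupp
                intro h
                apply hy0
                have h5 : u + -(y + u) = -y := by abel
                rw [h5] at h
                exact neg_eq_zero.1 h
            · push Not at hex
              apply dl_single hF hNC zero_mem_neumann hd hH 0
              intro u hu _
              by_contra hne2
              exact hex u hu (hZs _ hne2)
          have hzn' : -z ∉ neumann d := by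
            intro h; apply hzn; rw [← neg_neg z]; exact neg_mem_neumann h
          rw [hfar z hzn, hfar (-z) hzn']; rfl
    apply Finset.sum_involution (fun z _ => -z)
    · exact hcancel
    · intro z hz hne h
      have hz0 : z = 0 := by
        funext j
        have := congrFun h j
        rw [Pi.neg_apply] at this
        rw [Pi.zero_apply]
        omega
      apply hne
      have := hcancel z hz
      rw [hz0, neg_zero] at this
      rw [hz0]
      omega
    · intro z _
      exact neg_neg z
    · intro z hz
      rw [Finset.mem_erase, Finset.mem_erase] at hz ⊢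
      obtain ⟨h1, h2, h3⟩ := hz
      refine ⟨fun h => h2 (neg_injective h), fun h => h1 (by rw [← h, neg_neg]), ?_⟩
      rw [mem_box2] at h3 ⊢
      intro j
      have := h3 j
      rw [Pi.neg_apply]
      omega
  have hwbox : w ∈ box2 d := mem_box2_of_mem hw
  have hnwbox : -w ∈ (box2 d).erase w := by
    rw [Finset.mem_erase]
    exact ⟨Ne.symm hwn, mem_box2_of_mem hnw⟩
  rw [← Finset.add_sum_erase _ _ hwbox, ← Finset.add_sum_erase _ _ hnwbox, hrest, hXnw] at hsum
  rw [hXw]
  omega

end Zero

section

variable (hF : IsNeumannCA F) (hNC : NumberConserving F) {u₀ : Fin d → ℤ}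
  (hu₀ : u₀ ∈ neumann d) (hd : 1 ≤ d) (hH : HH F u₀)

include hF hNC hu₀ hd hH

/-- all good two-cell patterns -/
theorem dl_pair {v w : Fin d → ℤ} (hv : v ∈ neumann d) (hw : w ∈ neumann d)
    (hs : v + w ≠ 0) {X : Config d}
    (hX : ∀ u ∈ neumann d, u ≠ v → u ≠ w → X u = 0) : dl F u₀ X = 0 := by
  by_cases hvw : v = w
  · apply dl_single hF hNC hu₀ hd hH v
    intro u hu h
    exact hX u hu h (by rw [← hvw]; exact h)
  · by_cases h0 : u₀ = 0
    · subst h0
      by_cases hv0 : v = 0
      · have hw0 : w ≠ 0 := by intro h; apply hvw; rw [hv0, h]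
        apply dl_pair_central hF hNC hd hH (w := -w) (neg_mem_neumann hw)
          (fun h => hw0 (neg_eq_zero.1 h))
        intro u hu h1 h2
        rw [neg_neg] at h2
        exact hX u hu (by rw [hv0]; exact h1) h2
      · by_cases hw0 : w = 0
        · apply dl_pair_central hF hNC hd hH (w := -v) (neg_mem_neumann hv)
            (fun h => hv0 (neg_eq_zero.1 h))
          intro u hu h1 h2
          rw [neg_neg] at h2
          exact hX u hu h2 (by rw [hw0]; exact h1)
        · exact dl_pair_noncentral hF hNC hd hH hv hw hvw hs hv0 hw0 hX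
    · exact dl_pair_of_ne hF hNC hu₀ hd hH h0 hv hw hvw hs hX

/-- (S3): the defect vanishes. -/
theorem dl_all (X : Config d) : dl F u₀ X = 0 := by
  classical
  let Y : Config d := fun z => if z ∈ neumann d then X z else 0
  have hYs : ∀ v, Y v ≠ 0 → v ∈ neumann d := by
    intro z hz
    by_contra h
    simp [Y, h] at hz
  have hXY : dl F u₀ X = dl F u₀ (tr 0 Y) := by
    apply dl_congr hF hu₀
    intro u hu
    simp [tr, Y, hu]
  have hsum := sum_dl hF hNC hu₀ (supp_neumann hYs)
  rw [Finset.sum_eq_single 0] at hsum
  · rw [hXY]; exact hsum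
  · intro z _ hz
    by_cases hex : ∃ u ∈ neumann d, z + u ∈ neumann d
    · obtain ⟨u, hu, hzu⟩ := hex
      apply dl_pair hF hNC hu₀ hd hH hu (neg_mem_neumann hzu)
      · intro h
        apply hz
        have h5 : u + -(z + u) = -z := by abel
        rw [h5] at h
        exact neg_eq_zero.1 h
      · intro u' hu' h1 h2
        by_contra hne2
        have hmem : z + u' ∈ neumann d := hYs _ hne2
        have e : u + (z + u') = u' + (z + u) := by abel
        by_cases e0 : u + (z + u') = 0
        · apply h2
          have : u' + (z + u) = 0 := by rw [← e]; exact e0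
          exact eq_neg_of_add_eq_zero_left this
        · rcases pair_unique hu hmem hu' hzu e e0 with ⟨h3, _⟩ | ⟨h3, _⟩
          · exact h1 h3.symm
          · apply hz
            have h4 : z + u = 0 + u := by rw [← h3, zero_add]
            exact add_right_cancel h4
    · push Not at hex
      apply dl_single hF hNC hu₀ hd hH 0
      intro u hu _
      by_contra hne2
      exact hex u hu (hYs _ hne2)
  · intro h
    exact absurd (mem_box2_of_mem zero_mem_neumann) h

theorem F_eq_shift (x : Config d) (v : Fin d → ℤ) : F x v = x (v + u₀) := by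
  have h := dl_all hF hNC hu₀ hd hH (tr v x)
  unfold dl at h
  rw [F_tr hF] at h
  apply Fin.ext
  show (F x v : ℕ) = (x (v + u₀) : ℕ)
  have h2 : tr v x u₀ = x (v + u₀) := rfl
  rw [h2] at h
  omega

end

end Pool.Agent.W_MP_944d6d_mp
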