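import Mathlib
import Pool.Agent.W_MP_944d6d_mp.Core2

set_option autoImplicit false

namespace Pool.Agent.W_MP_944d6d_mp

variable {d : ℕ} {F : Config d → Config d}

/-- The one-dimensional rule in direction `i`. -/
def rule1 (F : Config d → Config d) (i : Fin d) (a b c : Fin 3) : Fin 3 :=
  F (fun v => if v i = -1 then a else if v i = 1 then c else b) 0

theorem rule1_spec (hF : IsNeumannCA F) (i : Fin d) {X : Config d} {v : Fin d → ℤ} {a b c : Fin 3}
    (h0 : ∀ u ∈ neumann d, u i = 0 → X (v + u) = b)
    (h1 : ∀ u ∈ neumann d, u i = 1 → X (v + u) = c)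
    (h2 : ∀ u ∈ neumann d, u i = -1 → X (v + u) = a) : F X v = rule1 F i a b c := by
  unfold rule1
  apply loc hF
  intro u hu
  have hb := abs_le.1 (abs_le_one_of_mem hu i)
  have h3 : u i = 0 ∨ u i = 1 ∨ u i = -1 := by omega
  simp only [zero_add]
  rcases h3 with h3 | h3 | h3
  · rw [h0 u hu h3, h3]; simp
  · rw [h1 u hu h3, h3]; simp
  · rw [h2 u hu h3, h3]; simp

theorem rule1_line (hF : IsNeumannCA F) (i : Fin d) (y : ℤ → Fin 3) (v : Fin d → ℤ) :
    F (fun w => y (w i)) v = rule1 F i (y (v i - 1)) (y (v i)) (y (v i + 1)) := by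
  apply rule1_spec hF
  · intro u _ h; simp [h]
  · intro u _ h; simp [h]
  · intro u _ h
    show y ((v + u) i) = y (v i - 1)
    rw [Pi.add_apply, h]
    rfl

theorem rule1_NC (hF : IsNeumannCA F) (hNC : NumberConserving F) (i : Fin d) :
    NC1 (rule1 F i) := by
  intro n hn y hy
  let m : Fin d → ℕ := fun j => if j = i then n else 1
  have hm : ∀ j, 0 < m j := by
    intro j
    by_cases h : j = i
    · simp [m, h, hn]
    · simp [m, h]
  have hper : ∀ (j : Fin d) (v : Fin d → ℤ),
      (fun w : Fin d → ℤ => y (w i)) (v + Pi.single j (m j : ℤ)) = (fun w => y (w i)) v := by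
    intro j v
    show y ((v + (Pi.single j (m j : ℤ) : Fin d → ℤ)) i) = y (v i)
    by_cases h : j = i
    · subst h
      simp only [Pi.add_apply, Pi.single_eq_same, m, if_true]
      exact hy _
    · rw [Pi.add_apply, Pi.single_eq_of_ne (Ne.symm h), add_zero]
  have h1 := hNC m hm (fun w => y (w i)) hper
  have hbox : ∀ G : ℤ → ℤ,
      ∑ v ∈ Fintype.piFinset (fun j : Fin d => Finset.Ico (0 : ℤ) (m j)), G (v i)
        = ∑ t ∈ Finset.Ico (0 : ℤ) n, G t := by
    intro G
    apply Finset.sum_nbij' (fun v => v i) (fun t => Pi.single i t)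
    · intro v hv
      have := Fintype.mem_piFinset.1 hv i
      simpa [m] using this
    · intro t ht
      rw [Fintype.mem_piFinset]
      intro j
      by_cases h : j = i
      · subst h
        simpa [m] using ht
      · simp [m, h]
    · intro v hv
      funext j
      by_cases h : j = i
      · subst h; simp
      · have := Fintype.mem_piFinset.1 hv j
        simp only [m, h, if_false, Finset.mem_Ico, Nat.cast_one] at this
        show (Pi.single i (v i) : Fin d → ℤ) j = v j
        rw [Pi.single_eq_of_ne h]
        omega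
    · intro t _; simp
    · intro v _; rfl
  have h2 : ∑ v ∈ Fintype.piFinset (fun j : Fin d => Finset.Ico (0 : ℤ) (m j)),
      ((F (fun w => y (w i)) v : ℕ) : ℤ) = ∑ v ∈ Fintype.piFinset (fun j : Fin d =>
        Finset.Ico (0 : ℤ) (m j)), ((y (v i) : ℕ) : ℤ) := by
    exact_mod_cast h1
  rw [hbox (fun t => ((y t : ℕ) : ℤ))] at h2
  rw [← hbox (fun t => ((rule1 F i (y (t - 1)) (y t) (y (t + 1)) : ℕ) : ℤ)), ← h2]
  apply Finset.sum_congr rfl
  intro v _
  rw [rule1_line hF]

theorem rule1_inj (hF : IsNeumannCA F) (hinj : Function.Injective F) (i : Fin d) :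
    Inj1 (rule1 F i) := by
  intro y y' h
  have h1 : F (fun w => y (w i)) = F (fun w => y' (w i)) := by
    funext v
    rw [rule1_line hF, rule1_line hF]
    exact h _
  have h2 := hinj h1
  funext t
  have h3 := congrFun h2 (Pi.single i t)
  simpa using h3

/-- In each direction the automaton restricted to configurations which are constant in the other
directions is a shift. -/
theorem dir_shift (hF : IsNeumannCA F) (hNC : NumberConserving F) (hinj : Function.Injective F)
    (i : Fin d) : ∃ s : ℤ, |s| ≤ 1 ∧ ∀ (X : Config d) (v : Fin d → ℤ),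
      (∀ u ∈ neumann d, u i = 0 → X (v + u) = X v) → F X v = X (v + Pi.single i s) := by
  have hspec : ∀ (X : Config d) (v : Fin d → ℤ),
      (∀ u ∈ neumann d, u i = 0 → X (v + u) = X v) →
      F X v = rule1 F i (X (v + Pi.single i (-1))) (X v) (X (v + Pi.single i 1)) := by
    intro X v h
    apply rule1_spec hF
    · exact h
    · intro u hu hui
      congr 2
      apply eq_of_coord hu (single_mem_neumann i (by norm_num)) (i := i)
      · rw [hui]; norm_num
      · rw [hui]; simp
    · intro u hu hui
      congr 2
      apply eq_of_coord hu (single_mem_neumann i (by norm_num)) (i := i)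
      · rw [hui]; norm_num
      · rw [hui]; simp
  rcases oneD (rule1_NC hF hNC i) (rule1_inj hF hinj i) with h | h | h
  · refine ⟨-1, by norm_num, ?_⟩
    intro X v hX
    rw [hspec X v hX, h]
  · refine ⟨0, by norm_num, ?_⟩
    intro X v hX
    rw [hspec X v hX, h]
    simp
  · refine ⟨1, by norm_num, ?_⟩
    intro X v hX
    rw [hspec X v hX, h]

/-- **Main theorem**. -/
theorem main (hd : 1 ≤ d) (hF : IsNeumannCA F) (hNC : NumberConserving F)
    (hinj : Function.Injective F) :
    ∃ u₀ ∈ neumann d, ∀ x v, F x v = x (v + u₀) := by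
  classical
  choose s hs hsF using dir_shift hF hNC hinj
  -- at most one direction has a nontrivial shift
  have huniq : ∀ i j, s i ≠ 0 → s j ≠ 0 → i = j := by
    intro i j hi hj
    by_contra hij
    let Y : Config d := fun v => if v = 0 then 1 else 0
    have hYs : ∀ v, Y v ≠ 0 → ∀ i, |v i| ≤ 1 := by
      intro v hv k
      by_cases h : v = 0
      · rw [h]; simp
      · simp [Y, h] at hv
    have hsum := nc_box hF hNC hYs
    have hval : ∀ k, s k ≠ 0 → F Y (-(Pi.single k (s k))) = 1 := by
      intro k hk
      rw [hsF k]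
      · simp [Y]
      · intro u _ huk
        have e1 : -(Pi.single k (s k) : Fin d → ℤ) + u ≠ 0 := by
          intro h
          have := congrFun h k
          simp [huk] at this
          exact hk this
        have e2 : -(Pi.single k (s k) : Fin d → ℤ) ≠ 0 := by
          intro h
          have := congrFun h k
          simp at this
          exact hk this
        simp only [Y, e1, e2, if_false]
    have hne : (-(Pi.single i (s i)) : Fin d → ℤ) ≠ -(Pi.single j (s j)) := by
      intro h
      have := congrFun h i
      simp [Pi.single_eq_of_ne hij] at this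
      exact hi this
    have hsub : ({-(Pi.single i (s i)), -(Pi.single j (s j))} : Finset (Fin d → ℤ)) ⊆ box2 d := by
      intro z hz
      rw [Finset.mem_insert, Finset.mem_singleton] at hz
      rcases hz with hz | hz
      · rw [hz]; exact mem_box2_of_mem (neg_mem_neumann (single_mem_neumann i (hs i)))
      · rw [hz]; exact mem_box2_of_mem (neg_mem_neumann (single_mem_neumann j (hs j)))
    have h1 := Finset.sum_le_sum_of_subset_of_nonneg (f := fun v => ((F Y v : ℕ) : ℤ)) hsub
      (fun v _ _ => Int.natCast_nonneg _)
    rw [Finset.sum_pair hne, hval i hi, hval j hj, hsum] at h1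
    have h2 : ∑ v ∈ box2 d, ((Y v : ℕ) : ℤ) = 1 := by
      rw [Finset.sum_eq_single 0]
      · simp [Y]
      · intro v _ hv
        simp [Y, hv]
      · intro h
        exact absurd (mem_box2_of_mem zero_mem_neumann) h
    rw [h2] at h1
    norm_num at h1
  -- the shift vector
  obtain ⟨u₀, hu₀, hH⟩ : ∃ u₀ ∈ neumann d, HH F u₀ := by
    by_cases hex : ∃ i, s i ≠ 0
    · obtain ⟨i, hi⟩ := hex
      refine ⟨Pi.single i (s i), single_mem_neumann i (hs i), ?_⟩
      intro X j hX
      have h1 := hsF j X 0 (by
        intro u hu huj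
        rw [zero_add]
        exact hX u hu huj)
      unfold dl
      rw [h1, zero_add]
      by_cases hij : j = i
      · subst hij; simp
      · have hsj : s j = 0 := by
          by_contra h
          exact hij (huniq j i h hi)
        have h2 : X (Pi.single i (s i)) = X 0 :=
          hX _ (single_mem_neumann i (hs i)) (Pi.single_eq_of_ne hij _)
        rw [hsj, h2]
        simp
    · push Not at hex
      refine ⟨0, zero_mem_neumann, ?_⟩
      intro X j hX
      have h1 := hsF j X 0 (by
        intro u hu huj
        rw [zero_add]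
        exact hX u hu huj)
      unfold dl
      rw [h1, hex j]
      simp
  exact ⟨u₀, hu₀, fun x v => F_eq_shift hF hNC hu₀ hd hH x v⟩

end Pool.Agent.W_MP_944d6d_mp
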